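import Pool.Agent.H78.GC.RM

/-!
# Graph-codes avoiding clique differences have density at most `1/5 + o(1)`

Let `F` be a family of graphs on `n` labelled vertices such that no two distinct members have a
clique on at least two vertices as their symmetric difference.  Then
`|F| ≤ (1/5 + 4 (n + 1) / (5 * 2 ^ n)) * 2 ^ (n choose 2)`.

Outline: the ratio bound for the Cayley graph in which the cliques on all sets `U` of vertices have
equal weights.  The eigenvalue at the graph `S` is, up to the sets `U` with at most one element,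
`∑_U (-1) ^ e(S[U])`, a character sum of a quadratic form over `F_2` without squares.  It is at
least `- 2 ^ n / 4`: if `u v` is an edge of `S`, the sets `U` for which the degree of `u` in `U` is
odd cancel in pairs, and among the others at least `2 ^ n / 8` have `e(S[U])` even, as a nonzero
polynomial of degree at most three over `F_2` has at least `2 ^ n / 8` points where it is not zero.
-/

set_option autoImplicit false

open Finset
open scoped symmDiff

namespace Pool.Agent.Results.MP_0ba87f_co.OneFifth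

open Pool.Agent.H78.GC

/-- A family of graphs on `n` labelled vertices in which no two distinct members have a clique (the
complete graph on a vertex set with at least two elements, all other vertices isolated) as their
symmetric difference. -/
def IsCliqueCode {n : ℕ} (F : Finset (SimpleGraph (Fin n))) : Prop :=
  ∀ G ∈ F, ∀ H ∈ F, G ≠ H → ¬ ∃ S : Finset (Fin n), 2 ≤ S.card ∧
    ∀ u v : Fin n, (symmDiff G H).Adj u v ↔ (u ≠ v ∧ u ∈ S ∧ v ∈ S)

lemma card_Eg (n : ℕ) : Fintype.card (Eg n) = n.choose 2 := by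
  rw [Fintype.card_subtype, Finset.card_filter, Fintype.sum_prod_type_right]
  have h : ∀ y : Fin n, ∑ x : Fin n, (if (x, y).1 < (x, y).2 then 1 else 0) = (y : ℕ) := by
    intro y
    rw [← Finset.card_filter]
    have : univ.filter (fun x : Fin n => (x, y).1 < (x, y).2) = Finset.Iio y := by
      ext x; simp
    rw [this, Fin.card_Iio]
  rw [sum_congr rfl (fun y _ => h y), Fin.sum_univ_eq_sum_range (fun i => i) n,
    Finset.sum_range_id, Nat.choose_two_right]

open Classical in
/-- the edges of a graph -/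
noncomputable def eg {n : ℕ} (G : SimpleGraph (Fin n)) : Finset (Eg n) :=
  univ.filter (fun e => G.Adj e.1.1 e.1.2)

lemma mem_eg {n : ℕ} (G : SimpleGraph (Fin n)) (e : Eg n) : e ∈ eg G ↔ G.Adj e.1.1 e.1.2 := by
  unfold eg; simp

lemma eg_inj {n : ℕ} : Function.Injective (eg (n := n)) := by
  intro G H h
  have key : ∀ u v : Fin n, u < v → (G.Adj u v ↔ H.Adj u v) := by
    intro u v huv
    have := mem_eg G ⟨(u, v), huv⟩
    rw [h, mem_eg] at this
    exact this.symm
  ext u v
  rcases lt_trichotomy u v with huv | huv | huv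
  · exact key u v huv
  · subst huv; simp
  · rw [G.adj_comm, H.adj_comm]; exact key v u huv

lemma int_bound {n : ℕ} (F : Finset (SimpleGraph (Fin n))) (hF : IsCliqueCode F) :
    5 * 2 ^ n * (F.card : ℤ) ≤ (2 ^ n + 4 * (n + 1)) * 2 ^ (n.choose 2) := by
  classical
  have h := main (F.image eg) (by
    intro A hA B hB U hU hAB
    obtain ⟨G, hG, rfl⟩ := mem_image.mp hA
    obtain ⟨H, hH, rfl⟩ := mem_image.mp hB
    have key : ∀ u v : Fin n, u < v → ((symmDiff G H).Adj u v ↔ (u ∈ U ∧ v ∈ U)) := by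
      intro u v huv
      have h1 : (⟨(u, v), huv⟩ : Eg n) ∈ eg G ∆ eg H ↔ (⟨(u, v), huv⟩ : Eg n) ∈ KK U := by
        rw [hAB]
      rw [Finset.mem_symmDiff, mem_eg, mem_eg] at h1
      unfold KK at h1
      simp only [mem_filter, mem_univ, true_and] at h1
      rw [← h1, symmDiff_def, SimpleGraph.sup_adj, SimpleGraph.sdiff_adj, SimpleGraph.sdiff_adj]
    have hall : ∀ u v : Fin n, (symmDiff G H).Adj u v ↔ (u ≠ v ∧ u ∈ U ∧ v ∈ U) := by
      intro u v
      rcases lt_trichotomy u v with huv | huv | huv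
      · rw [key u v huv]; simp [huv.ne]
      · subst huv; simp
      · rw [SimpleGraph.adj_comm, key v u huv]
        constructor
        · rintro ⟨h1, h2⟩; exact ⟨huv.ne', h2, h1⟩
        · rintro ⟨_, h1, h2⟩; exact ⟨h2, h1⟩
    have hne : G ≠ H := by
      rintro rfl
      obtain ⟨a, ha, b, hb, hab⟩ := Finset.one_lt_card.mp (by omega : 1 < U.card)
      have := (hall a b).mpr ⟨hab, ha, hb⟩
      rw [symmDiff_self] at this
      simp at this
    exact hF G hG H hH hne ⟨U, hU, hall⟩)
  rw [card_image_of_injective _ eg_inj, card_Eg] at h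
  exact h

/-- **The density of a code avoiding clique differences is at most `1/5 + o(1)`**, with the explicit
bound `|F| ≤ (1/5 + 4 (n + 1) / (5 * 2 ^ n)) * 2 ^ (n choose 2)` for every `n`. -/
theorem result :
    (∀ (n : ℕ) (F : Finset (SimpleGraph (Fin n))), IsCliqueCode F →
      (F.card : ℝ) ≤ (1 / 5 + 4 * ((n : ℝ) + 1) / (5 * 2 ^ n)) * (2 : ℝ) ^ (n.choose 2)) ∧
    (∀ ε : ℝ, 0 < ε → ∃ N : ℕ, ∀ n : ℕ, N ≤ n → ∀ F : Finset (SimpleGraph (Fin n)),
      IsCliqueCode F → (F.card : ℝ) ≤ (1 / 5 + ε) * (2 : ℝ) ^ (n.choose 2)) := by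
  have h1 : ∀ (n : ℕ) (F : Finset (SimpleGraph (Fin n))), IsCliqueCode F →
      (F.card : ℝ) ≤ (1 / 5 + 4 * ((n : ℝ) + 1) / (5 * 2 ^ n)) * (2 : ℝ) ^ (n.choose 2) := by
    intro n F hF
    have h := int_bound F hF
    have h' : 5 * 2 ^ n * (F.card : ℝ) ≤ (2 ^ n + 4 * ((n : ℝ) + 1)) * 2 ^ (n.choose 2) := by
      exact_mod_cast h
    have hp : (0 : ℝ) < 5 * 2 ^ n := by positivity
    have e1 : (1 / 5 + 4 * ((n : ℝ) + 1) / (5 * 2 ^ n)) * (2 : ℝ) ^ (n.choose 2) =
        ((2 ^ n + 4 * ((n : ℝ) + 1)) * 2 ^ (n.choose 2)) / (5 * 2 ^ n) := by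
      field_simp
    rw [e1, le_div_iff₀ hp]
    linarith
  refine ⟨h1, fun ε hε => ?_⟩
  have ht : Filter.Tendsto (fun n : ℕ => 4 * ((n : ℝ) + 1) / (5 * 2 ^ n)) Filter.atTop
      (nhds 0) := by
    have a1 : Filter.Tendsto (fun n : ℕ => (n : ℝ) * (1 / 2) ^ n) Filter.atTop (nhds 0) :=
      tendsto_self_mul_const_pow_of_lt_one (by norm_num) (by norm_num)
    have a2 : Filter.Tendsto (fun n : ℕ => ((1 : ℝ) / 2) ^ n) Filter.atTop (nhds 0) :=
      tendsto_pow_atTop_nhds_zero_of_lt_one (by norm_num) (by norm_num)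
    have a3 := (a1.add a2).const_mul (4 / 5)
    rw [add_zero, mul_zero] at a3
    refine a3.congr ?_
    intro n
    rw [one_div, inv_pow]
    field_simp
  obtain ⟨N, hN⟩ := Filter.eventually_atTop.mp (ht.eventually (ge_mem_nhds hε))
  refine ⟨N, fun n hn F hF => (h1 n F hF).trans ?_⟩
  have := hN n hn
  gcongr

end Pool.Agent.Results.MP_0ba87f_co.OneFifth
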